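import Pool.Agent.helper7.RC.Mon
import Pool.Agent.helper66.RC.Fin
import Pool.Agent.helper80.RC.AR
import Pool.Agent.helper69.RC.Simple

/-!
# Module RC6: the varieties of groups whose subdirectly irreducible members are smaller than the continuum
-/

namespace Pool.Agent.helper7.RC

open Pool.Agent.helper80.RSV Function

theorem resSmall_of_smallSI {W : Set (FreeGroup ℕ)} (hc : SmallSI W) : ResSmall W :=
  ⟨Cardinal.continuum, hc⟩

/-- all subdirectly irreducible members are abelian by finite -/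
theorem virtAb_of_SI {W : Set (FreeGroup ℕ)} (hc : SmallSI W) {G : Type} [Group G] (hG : Sat W G)
    (hSI : SubdirIrr G) : ∃ N : Subgroup G, N.Normal ∧ N.FiniteIndex ∧ AbSub N := by
  obtain ⟨M, -, hMne, hMle⟩ := hSI
  obtain ⟨a, ha⟩ := Subgroup.ne_bot_iff_exists_ne_one.mp hMne
  have hasi : ASI (a : G) :=
    ⟨fun h => ha (Subtype.ext h), fun N hN hne => hMle N hN hne a.2⟩
  obtain ⟨E, _, ι, hι, hE, haE, hAR⟩ := Pool.Agent.helper80.RC.exists_AR hc hG hasi
  have hcard : Cardinal.mk E < Cardinal.continuum := hc E hE haE.subdirIrr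
  obtain ⟨A, hA⟩ : ∃ A : Subgroup E, LeastNormal A := haE.subdirIrr
  obtain ⟨K, hKn, hK⟩ := exists_K hE hAR haE.1
  have hKC : K ≤ Subgroup.centralizer (A : Set E) := K_le_centralizer hE hAR haE hcard hK hKn hA
  obtain ⟨k, hk⟩ := exists_U_le_K hE hAR haE hcard hK
  obtain ⟨C, hC⟩ : ∃ C : Subgroup E, C = Subgroup.centralizer (A : Set E) := ⟨_, rfl⟩
  rw [← hC] at hKC
  have hAn := hA.1
  have hCn : C.Normal := by rw [hC]; infer_instance
  have hfi : C.FiniteIndex := by
    refine finiteIndex_of_U hc hE haE.1 (k := k) fun y hy => ?_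
    by_contra hcon
    exact hy (hKC (hk hcon))
  have hab : AbSub C := by
    by_cases hAab : AbSub A
    · rw [hC]
      exact centralizer_abelian hA (zp_of_rs (resSmall_of_smallSI hc) hE)
    · have hCb : C = ⊥ := by
        by_contra hne
        have hAC : A ≤ C := hA.2.2 C hCn hne
        apply hAab
        intro x hx y hy
        have h1 := hAC hy
        rw [hC, Subgroup.mem_centralizer_iff] at h1
        exact h1 x hx
      rw [hCb]
      intro x hx y hy
      rw [Subgroup.mem_bot] at hx hy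
      rw [hx, hy]
  have hci : (C.comap ι).FiniteIndex := by
    have h1 := Subgroup.relIndex_comap_ne_zero ι (J := C) (K := ⊤) (by
      rw [Subgroup.relIndex_top_right]
      exact hfi.index_ne_zero)
    rw [Subgroup.comap_top, Subgroup.relIndex_top_right] at h1
    exact ⟨h1⟩
  refine ⟨C.comap ι, inferInstance, hci, fun x hx y hy => ?_⟩
  apply hι
  rw [map_mul, map_mul]
  exact hab _ hx _ hy

theorem virtSol_of_ab {G : Type} [Group G]
    (h : ∃ N : Subgroup G, N.Normal ∧ N.FiniteIndex ∧ AbSub N) : VirtSol G := by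
  obtain ⟨N, h1, h2, h3⟩ := h
  exact ⟨N, h1, h2, Group.isSolvable_of_comm fun x y => Subtype.ext (h3 x x.2 y y.2)⟩

/-- the variety is generated by virtually soluble groups with bounded simple sections -/
theorem genVSB_of_smallSI {W : Set (FreeGroup ℕ)} (hc : SmallSI W) : ∃ B : ℕ, GenVSB W B := by
  obtain ⟨B, hB⟩ := simple_bounded (W := W) fun G _ hG hSI => virtAb_of_SI hc hG hSI
  refine ⟨B, fun w hw G _ hG f => ?_⟩
  by_contra hne
  obtain ⟨N, hN, -, haN, hmax⟩ := exists_max_avoid (N₀ := (⊥ : Subgroup G)) inferInstance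
    (a := FreeGroup.lift f w) (by rwa [Subgroup.mem_bot])
  apply haN
  have hSI : SubdirIrr (G ⧸ N) := subdirIrr_quotient haN hmax
  have hQ : Sat W (G ⧸ N) := hG.quotient N
  have hsec : SimpleSec B (G ⧸ N) := by
    intro K S _ φ hφ hfS hsS hna
    exact hB S ((hQ.subgroup K).of_surjective φ hφ) hfS hsS hna
  have h1 := hw (G ⧸ N) (virtSol_of_ab (virtAb_of_SI hc hQ hSI)) hsec hQ
    (fun n => ((f n : G) : G ⧸ N))
  have h4 := map_lift (QuotientGroup.mk' N) f w
  rw [← QuotientGroup.eq_one_iff]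
  have h5 : ((FreeGroup.lift f w : G) : G ⧸ N) = QuotientGroup.mk' N (FreeGroup.lift f w) := rfl
  rw [h5, h4]
  exact h1

theorem final_RC (W : Set (FreeGroup ℕ)) :
    List.TFAE [
      SmallSI W,
      ∀ (G : Type) [Group G], Sat W G → SubdirIrr G → Countable G,
      ∃ (F : Type) (_ : Group F), Finite F ∧ AbSylow F ∧
        ((∀ (G : Type) [Group G], Sat W G ↔ InVar F G) ∨
          (∀ (G : Type) [Group G], Sat W G ↔ InVar (F × Multiplicative ℤ) G))] := by
  tfae_have 1 → 3 := by
    intro hc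
    exact (final W (Or.inl (genVSB_of_smallSI hc))).1.mp (resSmall_of_smallSI hc)
  tfae_have 3 → 2 := by
    rintro ⟨F, _, hFf, hFA, hF⟩ G _ hG hSI
    exact countable_of_class hFA hF G hG hSI
  tfae_have 2 → 1 := by
    intro h G _ hG hSI
    have := h G hG hSI
    exact lt_of_le_of_lt Cardinal.mk_le_aleph0 Cardinal.aleph0_lt_continuum
  tfae_finish

end Pool.Agent.helper7.RC
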